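import Pool.Agent.H33R3.Bom.Stmts2
import Pool.Agent.H33R3.Bom.I1

set_option autoImplicit false

namespace Pool.Agent.H451R6.Bom2

open Complex Metric Set Filter Topology Pool.Agent.H33R3.Bom Pool.Agent.H33R3.Bom.I1

/-- TASK M2: the quadratic term -/
theorem taskM2 : TaskM2 := by
  intro hL hHB hYB Y hY n hn
  obtain ⟨hep0, hhb⟩ := hHB Y hY
  obtain ⟨r, D, hD, hr0, hr1, hrD, hrD2, -⟩ := radius n hn
  have hn' : (2 : ℝ) ≤ n := by exact_mod_cast hn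
  have hD4 : 4 ≤ D := by rw [hD]; linarith
  have hD0 : 0 < D := by linarith
  have hr4 : 1 / 4 ≤ r ^ (2 * n) := by
    have h2 : (1 : ℝ) / 2 ≤ r ^ n := by
      have := one_add_mul_le_pow (a := -(1 / D)) (by
        have : 1 / D ≤ 1 := by rw [div_le_one hD0]; linarith
        linarith) n
      have h3 : 1 + (n : ℝ) * -(1 / D) = 1 / 2 := by
        rw [hD]; field_simp; ring
      rw [h3] at this
      have h5 : 1 + -(1 / D) = r := by rw [← hrD]; ring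
      rwa [h5] at this
    have h5 : r ^ (2 * n) = (r ^ n) ^ 2 := by rw [mul_comm 2 n, pow_mul]
    rw [h5]
    nlinarith
  have hhd := hh_diff Y hY
  have hYd := hY.diff
  have hkd : DifferentiableOn ℂ (fun z : ℂ => 1 - z ^ 2) (ball 0 1) := by fun_prop
  have hzb : ∀ z : ℂ, ‖z‖ = r → z ∈ ball (0 : ℂ) 1 := by
    intro z hz
    simpa [hz] using hr1
  have hki : DifferentiableOn ℂ (fun z : ℂ => (1 - z ^ 2)⁻¹) (ball 0 1) :=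
    hkd.inv fun z hz => ker_ne hz
  have hYi : DifferentiableOn ℂ (fun z : ℂ => (Y z)⁻¹) (ball 0 1) :=
    hYd.inv fun z hz => hY.ne z hz
  have hdiff : DifferentiableOn ℂ (fun z => z ^ 4 * (hh Y z) ^ 2 *
      (2 * ((1 - z ^ 2)⁻¹) ^ 3 * (Y z)⁻¹ + ((1 - z ^ 2)⁻¹) ^ 2 * ((Y z)⁻¹) ^ 2)) (ball 0 1) := by
    apply DifferentiableOn.mul
    · exact (differentiableOn_id.pow 4).mul (hhd.pow 2)
    · exact (((hki.pow 3).const_mul 2).mul hYi).add ((hki.pow 2).mul (hYi.pow 2))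
  have hLa : La r ≤ Real.log (2 * n) := by
    rw [La, ← Real.log_inv]
    apply Real.log_le_log (by
      have : 0 < 1 - r ^ 2 := by nlinarith
      positivity)
    rw [← hD, inv_le_comm₀ (by nlinarith) hD0, ← one_div]
    exact hrD2
  have hLa0 : 0 ≤ La r := by
    rw [La, neg_nonneg]
    apply Real.log_nonpos <;> nlinarith
  set l : ℝ := Real.log (2 * n) with hl
  have hl0 : 0 ≤ l := hLa0.trans hLa
  have hbound : ∀ z : ℂ, ‖z‖ = r → ‖(fun z => z ^ 4 * (hh Y z) ^ 2 *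
      (2 * ((1 - z ^ 2)⁻¹) ^ 3 * (Y z)⁻¹ + ((1 - z ^ 2)⁻¹) ^ 2 * ((Y z)⁻¹) ^ 2)) z‖ ≤
      (3 * D ^ 2 * (ep Y * l)) / ‖1 - z ^ 2‖ ^ 2 + 0 := by
    intro z hz
    have hzz := hzb z hz
    have hTne := ker_ne hzz
    have hT : 0 < ‖1 - z ^ 2‖ := norm_pos_iff.2 hTne
    have hTl : 1 / D ≤ ‖1 - z ^ 2‖ := by
      have h1 : ‖(1 : ℂ)‖ - ‖z ^ 2‖ ≤ ‖1 - z ^ 2‖ := norm_sub_norm_le _ _
      rw [norm_one, norm_pow, hz] at h1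
      linarith
    have hYl : 1 / D ≤ ‖Y z‖ := by
      have h1 := hYB Y hY z hzz
      rw [hz] at h1
      linarith
    have hYn : 0 < ‖Y z‖ := lt_of_lt_of_le (by positivity) hYl
    have hTi : ‖(1 - z ^ 2)⁻¹‖ ≤ D := by
      rw [norm_inv, inv_le_comm₀ hT hD0, ← one_div]; exact hTl
    have hYi' : ‖(Y z)⁻¹‖ ≤ D := by
      rw [norm_inv, inv_le_comm₀ hYn hD0, ← one_div]; exact hYl
    have hh2 : ‖hh Y z‖ ^ 2 ≤ ep Y * l := by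
      have h1 := hhb z hzz
      rw [hz] at h1
      exact h1.trans (mul_le_mul_of_nonneg_left hLa hep0)
    have hz4 : ‖z‖ ^ 4 ≤ 1 := pow_le_one₀ (norm_nonneg _) (by rw [hz]; exact hr1.le)
    rw [add_zero, le_div_iff₀ (by positivity)]
    have e1 : ‖z ^ 4 * (hh Y z) ^ 2 * (2 * ((1 - z ^ 2)⁻¹) ^ 3 * (Y z)⁻¹ +
        ((1 - z ^ 2)⁻¹) ^ 2 * ((Y z)⁻¹) ^ 2)‖ * ‖1 - z ^ 2‖ ^ 2 =
        ‖z‖ ^ 4 * ‖hh Y z‖ ^ 2 * ‖2 * (1 - z ^ 2)⁻¹ * (Y z)⁻¹ + ((Y z)⁻¹) ^ 2‖ := by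
      have : 2 * ((1 - z ^ 2)⁻¹) ^ 3 * (Y z)⁻¹ + ((1 - z ^ 2)⁻¹) ^ 2 * ((Y z)⁻¹) ^ 2 =
          ((1 - z ^ 2)⁻¹) ^ 2 * (2 * (1 - z ^ 2)⁻¹ * (Y z)⁻¹ + ((Y z)⁻¹) ^ 2) := by ring
      rw [this, norm_mul, norm_mul, norm_mul, norm_pow, norm_pow, norm_pow, norm_inv]
      field_simp
    change ‖z ^ 4 * (hh Y z) ^ 2 * (2 * ((1 - z ^ 2)⁻¹) ^ 3 * (Y z)⁻¹ +
        ((1 - z ^ 2)⁻¹) ^ 2 * ((Y z)⁻¹) ^ 2)‖ * ‖1 - z ^ 2‖ ^ 2 ≤ _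
    rw [e1]
    have e2 : ‖2 * (1 - z ^ 2)⁻¹ * (Y z)⁻¹ + ((Y z)⁻¹) ^ 2‖ ≤ 3 * D ^ 2 := by
      refine (norm_add_le _ _).trans ?_
      rw [norm_mul, norm_mul, norm_pow]
      have h2 : ‖(2 : ℂ)‖ = 2 := by simp
      rw [h2]
      have h3 : ‖(1 - z ^ 2)⁻¹‖ * ‖(Y z)⁻¹‖ ≤ D * D :=
        mul_le_mul hTi hYi' (norm_nonneg _) hD0.le
      have h4 : ‖(Y z)⁻¹‖ ^ 2 ≤ D ^ 2 := pow_le_pow_left₀ (norm_nonneg _) hYi' 2
      nlinarith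
    have e3 : ‖z‖ ^ 4 * ‖hh Y z‖ ^ 2 ≤ ep Y * l := by
      calc ‖z‖ ^ 4 * ‖hh Y z‖ ^ 2 ≤ 1 * (ep Y * l) :=
            mul_le_mul hz4 hh2 (by positivity) (by norm_num)
        _ = ep Y * l := one_mul _
    calc ‖z‖ ^ 4 * ‖hh Y z‖ ^ 2 * ‖2 * (1 - z ^ 2)⁻¹ * (Y z)⁻¹ + ((Y z)⁻¹) ^ 2‖
        ≤ (ep Y * l) * (3 * D ^ 2) := mul_le_mul e3 e2 (norm_nonneg _) (by positivity)
      _ = 3 * D ^ 2 * (ep Y * l) := by ring
  have key := hL _ r _ 0 hdiff hr0 hr1 hbound (2 * n)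
  rw [add_zero] at key
  have h4 : 1 / D ≤ 1 - r ^ 4 := by
    have : r ^ 4 ≤ r ^ 2 := pow_le_pow_of_le_one hr0.le hr1.le (by norm_num)
    linarith
  have h4' : 0 < 1 - r ^ 4 := lt_of_lt_of_le (by positivity) h4
  have hel : 0 ≤ ep Y * l := mul_nonneg hep0 hl0
  have h5 : 3 * D ^ 2 * (ep Y * l) / (1 - r ^ 4) ≤ 3 * D ^ 3 * (ep Y * l) := by
    rw [div_le_iff₀ h4']
    have h6 : 1 ≤ D * (1 - r ^ 4) := by
      rw [div_le_iff₀ hD0] at h4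
      linarith
    have h7 : 0 ≤ 3 * D ^ 2 * (ep Y * l) := by positivity
    nlinarith
  have h8 := key.trans h5
  set c := ‖coeff (2 * n) fun z => z ^ 4 * (hh Y z) ^ 2 *
      (2 * ((1 - z ^ 2)⁻¹) ^ 3 * (Y z)⁻¹ + ((1 - z ^ 2)⁻¹) ^ 2 * ((Y z)⁻¹) ^ 2)‖ with hc
  have hc0 : 0 ≤ c := norm_nonneg _
  have h9 : c * (1 / 4) ≤ c * r ^ (2 * n) := mul_le_mul_of_nonneg_left hr4 hc0
  have h10 : c ≤ 12 * D ^ 3 * (ep Y * l) := by linarith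
  rw [hD] at h10
  refine h10.trans ?_
  have h11 : 0 ≤ (n : ℝ) ^ 3 * (ep Y * l) := by positivity
  nlinarith

end Pool.Agent.H451R6.Bom2
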